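import Pool.Agent.W900.BC.Defs
import Pool.Agent.H628R3.RO.Defs

/-!
# Complete sets relative to oracles tossed with slightly biased coins: independent coins (statements)
-/

set_option autoImplicit false

namespace Pool.Agent.TH755.KD

open MeasureTheory Filter
open Pool.Agent.H628R3.RO (Oracle randomOracle)
open Pool.Agent.W900.BC (Biased)

/-! ### Independent coins -/

/-- the bias, cut to `[-1/2, 1/2]` -/
noncomputable def cut (r : ℝ) : ℝ := max (-(1 / 2)) (min (1 / 2) r)

theorem cut_bounds (r : ℝ) : -(1 / 2) ≤ cut r ∧ cut r ≤ 1 / 2 := by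
  unfold cut
  exact ⟨le_max_left _ _, max_le (by norm_num) (min_le_left _ _)⟩

theorem cut_eq {r : ℝ} (h : |r| ≤ 1 / 2) : cut r = r := by
  obtain ⟨h1, h2⟩ := abs_le.1 h
  unfold cut
  rw [min_eq_right h2, max_eq_right h1]

/-- a coin with bias `r`: the value `true` has probability `1 / 2 + r` -/
noncomputable def bcoin (r : ℝ) : Measure Bool :=
  ENNReal.ofReal (1 / 2 + cut r) • Measure.dirac true +
    ENNReal.ofReal (1 / 2 - cut r) • Measure.dirac false

instance (r : ℝ) : IsProbabilityMeasure (bcoin r) := by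
  constructor
  have h := cut_bounds r
  unfold bcoin
  simp only [Measure.add_apply, Measure.smul_apply, measure_univ, smul_eq_mul, mul_one]
  rw [← ENNReal.ofReal_add (by linarith) (by linarith), ← ENNReal.ofReal_one]
  congr 1
  ring

/-- independent coins with biases `r` -/
noncomputable def prodM (r : List Bool → ℝ) : Measure Oracle :=
  Measure.infinitePi fun z => bcoin (r z)

instance (r : List Bool → ℝ) : IsProbabilityMeasure (prodM r) := by
  unfold prodM
  infer_instance

/-- more than half of the strings in `P` are in the oracle -/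
def Maj (A : Oracle) (P : Finset (List Bool)) : Prop :=
  P.card < 2 * (P.filter fun z => A z = true).card

/-- (AC) Square summable biases do not matter. -/
def S_AC : Prop := ∀ ε : ℕ → ℝ, (∀ n, 0 ≤ ε n) → Summable (fun m : ℕ => (2 : ℝ) ^ m * ε m ^ 2) →
  ∀ μ : Measure Oracle, IsProbabilityMeasure μ → Biased ε μ → μ ≪ randomOracle

/-- (DEP) the law of the short strings -/
def S_DEP : Prop := ∀ (r r' : List Bool → ℝ) (T : ℕ) (E : Set Oracle),
  (∀ z : List Bool, z.length < T → r z = r' z) →
  (∀ A A' : Oracle, (∀ z : List Bool, z.length < T → A z = A' z) → A ∈ E → A' ∈ E) →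
  prodM r E = prodM r' E

/-- (BI) independent coins are a biased law -/
def S_BI : Prop := ∀ (ε : ℕ → ℝ) (r : List Bool → ℝ), (∀ z, |r z| ≤ ε z.length) →
  Biased ε (prodM r)

/-- (CH) a controlled majority -/
def S_CH : Prop := ∀ (r : List Bool → ℝ) (P : Finset (List Bool)) (η : ℝ), 0 ≤ η → η ≤ 1 / 2 →
  ((∀ z ∈ P, r z = η) → prodM r {A | ¬ Maj A P} ≤ ENNReal.ofReal (Real.exp (-(2 * η ^ 2 * P.card)))) ∧
  ((∀ z ∈ P, r z = -η) → prodM r {A | Maj A P} ≤ ENNReal.ofReal (Real.exp (-(2 * η ^ 2 * P.card))))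

/-- (FC) fair majorities of disjoint odd blocks -/
def S_FC : Prop := ∀ (r : List Bool → ℝ) (k : ℕ) (P : ℕ → Finset (List Bool)) (b : ℕ → Bool),
  (∀ i < k, ∀ j < k, i ≠ j → Disjoint (P i) (P j)) → (∀ i < k, Odd (P i).card) →
  (∀ i < k, ∀ z ∈ P i, r z = 0) →
  prodM r {A | ∀ i < k, (Maj A (P i) ↔ b i = true)} ≤ ENNReal.ofReal ((1 / 2) ^ k)

end Pool.Agent.TH755.KD
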