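import Pool.Agent.TH755.KD.StmA
import Pool.Agent.W900.SQ.Plant

/-!
# Complete sets relative to oracles tossed with slightly biased coins: the messages (statements)
-/

set_option autoImplicit false

namespace Pool.Agent.TH755.KD

open MeasureTheory Filter
open Pool.Agent.H628R3.RO (Oracle randomOracle IsFP)
open Pool.Agent.H943R5.GC (st zv zu zm Adm Viol Bad act TT kd ex)
open Pool.Agent.NPC (unpair)

/-! ### The messages -/

/-- the string `z` is in the block number `i` of the strings of length `l`: it has the length `l`, it
starts with `i` ones and a zero, and the rest contains a one -/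
def inB (l i : ℕ) (z : List Bool) : Bool :=
  decide (z.length = l) && (decide (z.take (i + 1) = List.replicate i true ++ [false]) &&
    (z.drop (i + 1)).any fun b => b)

/-- the block number `i` of the strings of length `l` -/
def blk (l i : ℕ) : Finset (List Bool) :=
  ((Finset.range (2 ^ (l + 1))).image st).filter fun z => inB l i z = true

/-- The strings of length `l` declare `i`: of the first `l / E` blocks, exactly the block number `i`
has a majority of strings in the oracle. -/
def Decl (E : ℕ) (A : Oracle) (l i : ℕ) : Prop :=
  i < l / E ∧ Maj A (blk l i) ∧ ∀ j < l / E, j ≠ i → ¬ Maj A (blk l j)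

/-- the oracle starts with the bits `σ` -/
def Pfx (A : Oracle) (σ : List Bool) : Prop := ∀ j < σ.length, A (st j) = σ.getD j false

/-- The code of the instance `z` is declared, for a prefix of the oracle, by the strings of some
length `l ≥ l₀` with `2 ^ (l + 1) ≤ m`, where `m` is the budget in `z`, and it is not in the list
`F`. -/
def RM (E l₀ : ℕ) (F : List (List Bool)) (A : Oracle) (z : List Bool) : Prop :=
  zv z ∉ F ∧ ∃ l, l₀ ≤ l ∧ 2 ^ (l + 1) ≤ zm z ∧ ∃ i, Decl E A l i ∧
    (unpair (st i)).1 = zv z ∧ Pfx A (unpair (st i)).2

open Classical in
/-- (FP) the guard is decidable in polynomial time -/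
def S_FP : Prop := ∀ (E l₀ : ℕ) (F : List (List Bool)) (A : Oracle), 1 ≤ E →
  IsFP A (fun z => if RM E l₀ F A z then [true] else [])

end Pool.Agent.TH755.KD
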